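import Pool.Agent.Helper57.NX.Defs

/-!
# Project NX, module NX-6: box norms
-/

set_option autoImplicit false
set_option linter.unusedSectionVars false
set_option linter.unusedVariables false

open Finset
open scoped BigOperators ComplexConjugate

namespace Pool.Agent.Helper57.NX

noncomputable section

/-! ### private versions of basic lemmas -/

section private_basic
variable {N : ℕ} [NeZero N]

private theorem bx_expect_shift {M : Type} [AddCommMonoid M] [Module ℚ≥0 M] (f : ZMod N → M)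
    (t : ZMod N) : 𝔼 x, f (x + t) = 𝔼 x, f x :=
  Fintype.expect_equiv (Equiv.addRight t) _ _ fun _ => rfl

private theorem bx_norm_expect_le {ι : Type} (s : Finset ι) (f : ι → ℂ) :
    ‖𝔼 i ∈ s, f i‖ ≤ 𝔼 i ∈ s, ‖f i‖ := RCLike.norm_expect_le (K := ℂ)

private theorem bx_expect_le_const {ι : Type} (s : Finset ι) (f : ι → ℝ) (c : ℝ) (hc : 0 ≤ c)
    (h : ∀ i ∈ s, f i ≤ c) : 𝔼 i ∈ s, f i ≤ c := by
  rcases s.eq_empty_or_nonempty with rfl | hs
  · simpa using hc
  · exact expect_le hs h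

private theorem bx_norm_expect_le_const {ι : Type} (s : Finset ι) (f : ι → ℂ) (c : ℝ) (hc : 0 ≤ c)
    (h : ∀ i ∈ s, ‖f i‖ ≤ c) : ‖𝔼 i ∈ s, f i‖ ≤ c :=
  (bx_norm_expect_le s f).trans (bx_expect_le_const s _ c hc h)

private theorem bx_norm_A_le {f : ZMod N → ℂ} (hf : ∀ x, ‖f x‖ ≤ 1) (L : ℕ) (x : ZMod N) :
    ‖A L f x‖ ≤ 1 :=
  bx_norm_expect_le_const _ _ 1 zero_le_one fun _ _ => hf _

private theorem bx_A_comm (L L' : ℕ) (f : ZMod N → ℂ) : A L (A L' f) = A L' (A L f) := by
  funext x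
  simp only [A]
  rw [expect_comm]
  refine expect_congr rfl fun a _ => expect_congr rfl fun b _ => ?_
  congr 1
  ring

private theorem bx_conj_expect {ι : Type} (s : Finset ι) (f : ι → ℂ) :
    conj (𝔼 i ∈ s, f i) = 𝔼 i ∈ s, conj (f i) :=
  map_expect (starRingEnd ℂ) f s

/-- square of an average -/
private theorem bx_norm_sq_expect {ι : Type} (s : Finset ι) (f : ι → ℂ) :
    ((‖𝔼 i ∈ s, f i‖ ^ 2 : ℝ) : ℂ) = 𝔼 i ∈ s, 𝔼 j ∈ s, f i * conj (f j) := by
  rw [← expect_mul_expect, ← bx_conj_expect, Complex.mul_conj, Complex.normSq_eq_norm_sq]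

/-- Cauchy Schwarz for a real average -/
private theorem bx_sq_expect_le {ι : Type} (s : Finset ι) (f : ι → ℝ) :
    (𝔼 i ∈ s, f i) ^ 2 ≤ 𝔼 i ∈ s, f i ^ 2 := by
  rcases s.eq_empty_or_nonempty with rfl | hs
  · simp
  · have := expect_mul_sq_le_sq_mul_sq s f (fun _ => 1)
    simpa [expect_const hs] using this

private theorem bx_norm_sq_expect_le {ι : Type} (s : Finset ι) (f : ι → ℂ) :
    ‖𝔼 i ∈ s, f i‖ ^ 2 ≤ 𝔼 i ∈ s, ‖f i‖ ^ 2 := by
  refine le_trans ?_ (bx_sq_expect_le s _)
  exact pow_le_pow_left₀ (norm_nonneg _) (bx_norm_expect_le s f) 2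

/-- one translation changes a long average only a little -/
private theorem bx_A_shift {f : ZMod N → ℂ} (hf : ∀ x, ‖f x‖ ≤ 1) (L : ℕ) (hL : 1 ≤ L)
    (x : ZMod N) (a : ℕ) : ‖A L f (x + (a : ZMod N)) - A L f x‖ ≤ 2 * a / L := by
  have hL0 : (0 : ℝ) < L := by exact_mod_cast hL
  induction a with
  | zero => simp
  | succ a ih =>
    have key : ‖A L f (x + ((a + 1 : ℕ) : ZMod N)) - A L f (x + (a : ZMod N))‖ ≤ 2 / L := by
      have e1 : ∀ y : ZMod N, A L f y = (∑ j ∈ range L, f (y + (j : ZMod N))) / L := by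
        intro y
        rw [A, expect_eq_sum_div_card, card_range]
      have e2 : (∑ j ∈ range L, f (x + ((a + 1 : ℕ) : ZMod N) + (j : ZMod N)))
          - ∑ j ∈ range L, f (x + (a : ZMod N) + (j : ZMod N))
          = f (x + (a : ZMod N) + (L : ZMod N)) - f (x + (a : ZMod N)) := by
        have h3 : ∀ j : ℕ, f (x + ((a + 1 : ℕ) : ZMod N) + (j : ZMod N))
            = (fun j : ℕ => f (x + (a : ZMod N) + (j : ZMod N))) (j + 1) := by
          intro j
          simp only
          congr 1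
          push_cast
          ring
        rw [sum_congr rfl fun j _ => h3 j, ← sum_sub_distrib,
          sum_range_sub (fun j : ℕ => f (x + (a : ZMod N) + (j : ZMod N)))]
        simp
      rw [e1, e1, ← sub_div, e2, norm_div, Complex.norm_natCast]
      gcongr
      calc ‖f (x + (a : ZMod N) + (L : ZMod N)) - f (x + (a : ZMod N))‖
          ≤ ‖f (x + (a : ZMod N) + (L : ZMod N))‖ + ‖f (x + (a : ZMod N))‖ := norm_sub_le _ _
        _ ≤ 2 := by linarith [hf (x + (a : ZMod N) + (L : ZMod N)), hf (x + (a : ZMod N))]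
    calc ‖A L f (x + ((a + 1 : ℕ) : ZMod N)) - A L f x‖
        ≤ ‖A L f (x + ((a + 1 : ℕ) : ZMod N)) - A L f (x + (a : ZMod N))‖
          + ‖A L f (x + (a : ZMod N)) - A L f x‖ := norm_sub_le_norm_sub_add_norm_sub _ _ _
      _ ≤ 2 / L + 2 * a / L := add_le_add key ih
      _ = 2 * ((a + 1 : ℕ) : ℝ) / L := by
        push_cast
        ring

private theorem bx_A_A_sub {f : ZMod N → ℂ} (hf : ∀ x, ‖f x‖ ≤ 1) (L L' : ℕ) (hL' : 1 ≤ L')
    (hL : 1 ≤ L) (x : ZMod N) : ‖A L (A L' f) x - A L' f x‖ ≤ 2 * L / L' := by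
  have hne : (range L).Nonempty := by simpa using (by omega : L ≠ 0)
  have h1 : A L (A L' f) x - A L' f x
      = 𝔼 a ∈ range L, (A L' f (x + (a : ZMod N)) - A L' f x) := by
    rw [expect_sub_distrib, expect_const hne]
    rfl
  rw [h1]
  refine bx_norm_expect_le_const _ _ _ (by positivity) fun a ha => ?_
  refine (bx_A_shift hf L' hL' x a).trans ?_
  have : (a : ℝ) ≤ L := by exact_mod_cast (mem_range.mp ha).le
  gcongr

/-- averages contract `L²` -/
private theorem bx_l2_A_le (L : ℕ) (g : ZMod N → ℂ) : 𝔼 x, ‖A L g x‖ ^ 2 ≤ 𝔼 x, ‖g x‖ ^ 2 := by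
  calc 𝔼 x, ‖A L g x‖ ^ 2 ≤ 𝔼 x, 𝔼 a ∈ range L, ‖g (x + (a : ZMod N))‖ ^ 2 :=
        expect_le_expect fun x _ => bx_norm_sq_expect_le _ _
    _ = 𝔼 a ∈ range L, 𝔼 x, ‖g (x + (a : ZMod N))‖ ^ 2 := expect_comm _ _ _
    _ = 𝔼 a ∈ range L, 𝔼 x, ‖g x‖ ^ 2 :=
        expect_congr rfl fun a _ => bx_expect_shift (fun x => ‖g x‖ ^ 2) _
    _ ≤ 𝔼 x, ‖g x‖ ^ 2 :=
        bx_expect_le_const _ _ _ (expect_nonneg fun _ _ => by positivity) fun _ _ => le_rfl

/-- shortening one direction -/
private theorem bx_shorten {w : ZMod N → ℂ} (hw : ∀ x, ‖w x‖ ≤ 1) (X X' : ℕ) (hX' : 1 ≤ X')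
    (hX : 1 ≤ X) : 𝔼 x, ‖A X w x‖ ^ 2 ≤ (𝔼 x, ‖A X' w x‖ ^ 2) + 4 * X' / X := by
  have h1 : 𝔼 x, ‖A X w x‖ ^ 2 ≤ (𝔼 x, ‖A X' (A X w) x‖ ^ 2) + 4 * X' / X := by
    have hc : (𝔼 _x : ZMod N, (4 * (X' : ℝ) / X)) = 4 * X' / X := expect_const univ_nonempty _
    rw [← hc, ← expect_add_distrib]
    refine expect_le_expect fun x _ => ?_
    have h2 := bx_A_A_sub hw X' X hX hX' x
    have h3 := bx_norm_A_le hw X x
    have h4 := bx_norm_A_le (bx_norm_A_le hw X) X' x
    have h5 : ‖A X w x‖ ≤ ‖A X' (A X w) x‖ + 2 * X' / X := by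
      have := norm_sub_norm_le (A X w x) (A X' (A X w) x)
      rw [norm_sub_rev] at h2
      linarith
    have h6 : ‖A X w x‖ ^ 2 - ‖A X' (A X w) x‖ ^ 2
        = (‖A X w x‖ - ‖A X' (A X w) x‖) * (‖A X w x‖ + ‖A X' (A X w) x‖) := by ring
    have h7 : 0 ≤ 2 * (X' : ℝ) / X := by positivity
    have h8 : (‖A X w x‖ - ‖A X' (A X w) x‖) * (‖A X w x‖ + ‖A X' (A X w) x‖)
        ≤ 2 * X' / X * 2 := by
      refine mul_le_mul (by linarith) (by linarith) (by positivity) h7
    have h9 : 2 * (X' : ℝ) / X * 2 = 4 * X' / X := by ring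
    linarith
  have h2 : 𝔼 x, ‖A X' (A X w) x‖ ^ 2 ≤ 𝔼 x, ‖A X' w x‖ ^ 2 := by
    rw [bx_A_comm]
    exact bx_l2_A_le X _
  linarith

end private_basic

/-! ### combinatorics of the cubes -/

section BoxNorm
variable {N : ℕ} [NeZero N]

private theorem bx_cjj_mul {k : ℕ} (ω : Fin k → Bool) (z w : ℂ) :
    cjj ω (z * w) = cjj ω z * cjj ω w := by
  unfold cjj
  split_ifs <;> simp

private theorem bx_cjj_conj {k : ℕ} (ω : Fin k → Bool) (z : ℂ) :
    cjj ω (conj z) = conj (cjj ω z) := by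
  unfold cjj
  split_ifs <;> simp

private theorem bx_norm_cjj {k : ℕ} (ω : Fin k → Bool) (z : ℂ) : ‖cjj ω z‖ = ‖z‖ := by
  unfold cjj
  split_ifs <;> simp

private theorem bx_cjj_cons {k : ℕ} (b : Bool) (ω : Fin k → Bool) (z : ℂ) :
    cjj (Fin.cons b ω : Fin (k + 1) → Bool) z = if b then conj (cjj ω z) else cjj ω z := by
  have h : #(univ.filter fun i : Fin (k + 1) => (Fin.cons b ω : Fin (k + 1) → Bool) i = true)
      = (if b then 1 else 0) + #(univ.filter fun i => ω i = true) := by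
    rw [Fin.card_filter_univ_succ]
    cases b <;> simp [add_comm]
  unfold cjj
  rw [h]
  cases b
  · simp
  · simp only [if_true]
    by_cases he : Even #(univ.filter fun i => ω i = true)
    · have h1 : ¬ Even (1 + #(univ.filter fun i => ω i = true)) := by
        rw [add_comm, Nat.even_add_one]
        exact not_not.mpr he
      rw [if_neg h1, if_pos he]
    · have h1 : Even (1 + #(univ.filter fun i => ω i = true)) := by
        rw [add_comm, Nat.even_add_one]
        exact he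
      rw [if_pos h1, if_neg he]
      simp

private theorem bx_sel_cons {k : ℕ} {α : Type} (β : Bool) (ω : Fin k → Bool) (a0 b0 : α)
    (a b : Fin k → α) :
    sel (Fin.cons β ω : Fin (k + 1) → Bool) (Fin.cons a0 a) (Fin.cons b0 b)
      = Fin.cons (if β then b0 else a0) (sel ω a b) := by
  funext i
  refine Fin.cases ?_ (fun i => ?_) i
  · simp [sel]
  · simp [sel]

private theorem bx_tot_cons {k : ℕ} (z : ℕ) (a : Fin k → ℕ) :
    tot (Fin.cons z a : Fin (k + 1) → ℕ) = z + tot a := by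
  simp [tot, Fin.sum_univ_succ]

/-- peel the first direction of a cube -/
private theorem bx_cube_cons (k : ℕ) (f : ZMod N → ℂ) (z z' : ℕ) (a b : Fin k → ℕ) (x : ZMod N) :
    cube f (Fin.cons z a) (Fin.cons z' b) x
      = cube (fun x => f (x + (z : ZMod N)) * conj (f (x + (z' : ZMod N)))) a b x := by
  unfold cube
  rw [← Fintype.prod_equiv (Fin.consEquiv (fun _ : Fin (k + 1) => Bool))
    (fun p => cjj (Fin.cons p.1 p.2 : Fin (k + 1) → Bool)
      (f (x + (tot (sel (Fin.cons p.1 p.2 : Fin (k + 1) → Bool) (Fin.cons z a)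
        (Fin.cons z' b)) : ZMod N)))) _ (fun p => rfl)]
  rw [Fintype.prod_prod_type, Fintype.prod_bool, ← prod_mul_distrib]
  refine prod_congr rfl fun ω _ => ?_
  rw [bx_cjj_cons, bx_cjj_cons, bx_sel_cons, bx_sel_cons, bx_tot_cons, bx_tot_cons, bx_cjj_mul,
    bx_cjj_conj, mul_comm]
  simp only [if_true, Bool.false_eq_true, if_false, Nat.cast_add]
  rw [add_assoc, add_assoc, add_comm (tot (sel ω a b) : ZMod N) (z : ZMod N),
    add_comm (tot (sel ω a b) : ZMod N) (z' : ZMod N)]

theorem cube_shift (k : ℕ) (f : ZMod N → ℂ) (a b : Fin k → ℕ) (t x : ZMod N) :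
    cube (fun x => f (x + t)) a b x = cube f a b (x + t) := by
  unfold cube
  refine prod_congr rfl fun ω _ => ?_
  rw [add_right_comm]

theorem cube_mul (k : ℕ) (f g : ZMod N → ℂ) (a b : Fin k → ℕ) (x : ZMod N) :
    cube (fun x => f x * g x) a b x = cube f a b x * cube g a b x := by
  unfold cube
  rw [← prod_mul_distrib]
  exact prod_congr rfl fun ω _ => bx_cjj_mul _ _ _

theorem cube_conj (k : ℕ) (f : ZMod N → ℂ) (a b : Fin k → ℕ) (x : ZMod N) :
    cube (fun x => conj (f x)) a b x = conj (cube f a b x) := by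
  unfold cube
  rw [map_prod]
  exact prod_congr rfl fun ω _ => bx_cjj_conj _ _

theorem norm_cube_le (k : ℕ) {f : ZMod N → ℂ} (hf : ∀ x, ‖f x‖ ≤ 1) (a b : Fin k → ℕ)
    (x : ZMod N) : ‖cube f a b x‖ ≤ 1 := by
  unfold cube
  rw [norm_prod]
  refine prod_le_one (fun _ _ => norm_nonneg _) fun ω _ => ?_
  rw [bx_norm_cjj]
  exact hf _

private theorem bx_expect_boxset_succ {M : Type} [AddCommMonoid M] [Module ℚ≥0 M] (k X : ℕ)
    (F : (Fin (k + 1) → ℕ) → M) :
    𝔼 a ∈ boxset (k + 1) X, F a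
      = 𝔼 z ∈ range X, 𝔼 a ∈ boxset k X, F (Fin.cons z a) := by
  rw [← expect_product' (range X) (boxset k X) (fun z a => F (Fin.cons z a))]
  refine expect_nbij' (fun a => (a 0, Fin.tail a)) (fun p => Fin.cons p.1 p.2) ?_ ?_ ?_ ?_ ?_
  · intro a ha
    simp only [boxset, Fintype.mem_piFinset] at ha
    simp only [boxset, mem_product, Fintype.mem_piFinset]
    exact ⟨ha 0, fun i => ha _⟩
  · intro p hp
    simp only [boxset, mem_product, Fintype.mem_piFinset] at hp
    simp only [boxset, Fintype.mem_piFinset]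
    intro i
    refine Fin.cases ?_ (fun i => ?_) i
    · simpa using hp.1
    · simpa using hp.2 i
  · intro a _
    simp
  · intro p _
    simp
  · intro a _
    simp

private theorem bx_boxset_zero (X : ℕ) : boxset 0 X = {Fin.elim0} := by
  ext a
  simp only [boxset, Fintype.mem_piFinset, mem_singleton]
  exact ⟨fun _ => Subsingleton.elim _ _, fun _ i => i.elim0⟩

private theorem bx_cube_zero (f : ZMod N → ℂ) (a b : Fin 0 → ℕ) (x : ZMod N) :
    cube f a b x = f x := by
  unfold cube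
  rw [Fintype.prod_unique]
  simp [cjj, tot]

private theorem bx_Box_zero (X : ℕ) (f : ZMod N → ℂ) : Box 0 X f = (𝔼 x, f x).re := by
  simp [Box, bx_boxset_zero, bx_cube_zero]

/-- `Box` with complex averages -/
private theorem bx_Box_eq (k X : ℕ) (f : ZMod N → ℂ) :
    Box k X f = 𝔼 a ∈ boxset k X, 𝔼 b ∈ boxset k X, (𝔼 x : ZMod N, cube f a b x).re := by
  simp only [Box, Complex.re_expect]

/-- peel off one direction -/
theorem Box_succ (k X : ℕ) (f : ZMod N → ℂ) :
    Box (k + 1) X f = 𝔼 z ∈ range X, 𝔼 z' ∈ range X,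
      Box k X (fun x => f (x + (z : ZMod N)) * conj (f (x + (z' : ZMod N)))) := by
  rw [bx_Box_eq, bx_expect_boxset_succ]
  refine expect_congr rfl fun z _ => ?_
  have h : ∀ a ∈ boxset k X, 𝔼 b ∈ boxset (k + 1) X,
      (𝔼 x : ZMod N, cube f (Fin.cons z a) b x).re
      = 𝔼 z' ∈ range X, 𝔼 b ∈ boxset k X, (𝔼 x : ZMod N,
        cube (fun x => f (x + (z : ZMod N)) * conj (f (x + (z' : ZMod N)))) a b x).re := by
    intro a _
    rw [bx_expect_boxset_succ]
    refine expect_congr rfl fun z' _ => expect_congr rfl fun b _ => ?_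
    simp only [bx_cube_cons]
  rw [expect_congr rfl h, expect_comm]
  refine expect_congr rfl fun z' _ => ?_
  rw [bx_Box_eq]

/-- averaging one direction with its own length -/
private theorem bx_Box_avg (k X Y : ℕ) (f : ZMod N → ℂ) :
    𝔼 z ∈ range Y, 𝔼 z' ∈ range Y,
      Box k X (fun x => f (x + (z : ZMod N)) * conj (f (x + (z' : ZMod N))))
    = 𝔼 a ∈ boxset k X, 𝔼 b ∈ boxset k X, 𝔼 x, ‖A Y (cube f a b) x‖ ^ 2 := by
  simp only [bx_Box_eq]
  have h1 : ∀ z ∈ range Y, 𝔼 z' ∈ range Y, 𝔼 a ∈ boxset k X, 𝔼 b ∈ boxset k X,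
      (𝔼 x : ZMod N,
        cube (fun x => f (x + (z : ZMod N)) * conj (f (x + (z' : ZMod N)))) a b x).re
      = 𝔼 a ∈ boxset k X, 𝔼 b ∈ boxset k X, 𝔼 z' ∈ range Y, (𝔼 x : ZMod N,
        cube (fun x => f (x + (z : ZMod N)) * conj (f (x + (z' : ZMod N)))) a b x).re := by
    intro z _
    rw [expect_comm]
    exact expect_congr rfl fun a _ => expect_comm _ _ _
  rw [expect_congr rfl h1, expect_comm]
  refine expect_congr rfl fun a _ => ?_
  rw [expect_comm]
  refine expect_congr rfl fun b _ => ?_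
  have h2 : ((𝔼 x, ‖A Y (cube f a b) x‖ ^ 2 : ℝ) : ℂ)
      = 𝔼 z ∈ range Y, 𝔼 z' ∈ range Y, 𝔼 x : ZMod N,
        cube (fun x => f (x + (z : ZMod N)) * conj (f (x + (z' : ZMod N)))) a b x := by
    rw [Complex.ofReal_expect]
    have h3 : ∀ x ∈ (univ : Finset (ZMod N)), ((‖A Y (cube f a b) x‖ ^ 2 : ℝ) : ℂ)
        = 𝔼 z ∈ range Y, 𝔼 z' ∈ range Y,
          cube (fun x => f (x + (z : ZMod N)) * conj (f (x + (z' : ZMod N)))) a b x := by
      intro x _
      unfold A
      rw [bx_norm_sq_expect]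
      refine expect_congr rfl fun z _ => expect_congr rfl fun z' _ => ?_
      rw [cube_mul k (fun x => f (x + (z : ZMod N))) (fun x => conj (f (x + (z' : ZMod N)))),
        cube_shift, cube_conj k (fun x => f (x + (z' : ZMod N))), cube_shift]
    rw [expect_congr rfl h3, expect_comm]
    exact expect_congr rfl fun z _ => expect_comm _ _ _
  have h4 := congrArg Complex.re h2
  simp only [Complex.ofReal_re, Complex.re_expect] at h4
  simp only [Complex.re_expect]
  exact h4.symm

private theorem bx_Box_succ' (k X : ℕ) (f : ZMod N → ℂ) :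
    Box (k + 1) X f
      = 𝔼 a ∈ boxset k X, 𝔼 b ∈ boxset k X, 𝔼 x, ‖A X (cube f a b) x‖ ^ 2 := by
  rw [Box_succ, bx_Box_avg]

theorem Box_nonneg (k X : ℕ) (f : ZMod N → ℂ) : 0 ≤ Box (k + 1) X f := by
  rw [bx_Box_succ']
  exact expect_nonneg fun a _ => expect_nonneg fun b _ => expect_nonneg fun x _ => by positivity

theorem Box_one (X : ℕ) (f : ZMod N → ℂ) : Box 1 X f = 𝔼 x, ‖A X f x‖ ^ 2 := by
  rw [bx_Box_succ' 0 X f, bx_boxset_zero]
  simp only [expect_singleton]
  have : cube f (Fin.elim0 : Fin 0 → ℕ) (Fin.elim0 : Fin 0 → ℕ) = f :=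
    funext fun x => bx_cube_zero f _ _ x
  rw [this]

/-- more directions -/
theorem Box_succ_ge (k X : ℕ) (hX : 1 ≤ X) {f : ZMod N → ℂ} (hf : ∀ x, ‖f x‖ ≤ 1) :
    Box k X f ^ 2 ≤ Box (k + 1) X f := by
  have hne : (range X).Nonempty := by simpa using (by omega : X ≠ 0)
  have h1 : ∀ g : ZMod N → ℂ, (𝔼 x, g x) = 𝔼 x, A X g x := by
    intro g
    unfold A
    rw [expect_comm]
    rw [expect_congr rfl fun (a : ℕ) _ => bx_expect_shift g (a : ZMod N), expect_const hne]
  rw [bx_Box_succ', bx_Box_eq]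
  refine (bx_sq_expect_le _ _).trans ?_
  refine expect_le_expect fun a _ => ?_
  refine (bx_sq_expect_le _ _).trans ?_
  refine expect_le_expect fun b _ => ?_
  rw [h1]
  refine le_trans ?_ (bx_norm_sq_expect_le _ _)
  exact sq_le_sq.mpr (by
    rw [abs_of_nonneg (norm_nonneg _)]
    exact Complex.abs_re_le_norm _)

/-- shorten all directions -/
theorem Box_shorten_all (k X X' : ℕ) (hX' : 1 ≤ X') (hX : X' ≤ X) {f : ZMod N → ℂ}
    (hf : ∀ x, ‖f x‖ ≤ 1) : Box k X f ≤ Box k X' f + k * (4 * X' / X) := by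
  induction k generalizing f with
  | zero => simp [bx_Box_zero]
  | succ k ih =>
    have h1 : Box (k + 1) X f
        ≤ (𝔼 z ∈ range X, 𝔼 z' ∈ range X,
          Box k X' (fun x => f (x + (z : ZMod N)) * conj (f (x + (z' : ZMod N)))))
          + k * (4 * X' / X) := by
      have hne : (range X).Nonempty := by simpa using (by omega : X ≠ 0)
      rw [Box_succ]
      have hc : 𝔼 _z ∈ range X, 𝔼 _z' ∈ range X, ((k : ℝ) * (4 * X' / X)) = k * (4 * X' / X) := by
        rw [expect_const hne, expect_const hne]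
      rw [← hc, ← expect_add_distrib]
      refine expect_le_expect fun z _ => ?_
      rw [← expect_add_distrib]
      refine expect_le_expect fun z' _ => ?_
      refine ih fun x => ?_
      rw [norm_mul, RCLike.norm_conj]
      exact mul_le_one₀ (hf _) (norm_nonneg _) (hf _)
    refine h1.trans ?_
    rw [bx_Box_avg, bx_Box_succ' k X' f]
    have h2 : 𝔼 a ∈ boxset k X', 𝔼 b ∈ boxset k X', 𝔼 x, ‖A X (cube f a b) x‖ ^ 2
        ≤ (𝔼 a ∈ boxset k X', 𝔼 b ∈ boxset k X', 𝔼 x, ‖A X' (cube f a b) x‖ ^ 2)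
          + 4 * X' / X := by
      have hne : (boxset k X').Nonempty := by
        refine ⟨fun _ => 0, ?_⟩
        simp only [boxset, Fintype.mem_piFinset, mem_range]
        intro _
        omega
      have hc : 𝔼 _a ∈ boxset k X', 𝔼 _b ∈ boxset k X', (4 * (X' : ℝ) / X) = 4 * X' / X := by
        rw [expect_const hne, expect_const hne]
      rw [← hc, ← expect_add_distrib]
      refine expect_le_expect fun a _ => ?_
      rw [← expect_add_distrib]
      refine expect_le_expect fun b _ => ?_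
      exact bx_shorten (norm_cube_le k hf a b) X X' hX' (hX'.trans hX)
    push_cast
    linarith

/-- `U2` is the two-dimensional box norm -/
private theorem bx_U2_eq (X : ℕ) (v : ZMod N → ℂ) : U2 X v = Box 2 X v := by
  rw [Box_succ]
  simp only [Box_succ 0, bx_Box_zero]
  unfold U2
  simp only [Complex.re_expect]
  rw [expect_comm]
  refine expect_congr rfl fun z _ => ?_
  rw [expect_comm]
  refine expect_congr rfl fun z' _ => ?_
  rw [expect_comm]
  refine expect_congr rfl fun y _ => ?_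
  rw [expect_comm]
  refine expect_congr rfl fun y' _ => ?_
  refine expect_congr rfl fun x _ => ?_
  congr 1
  rw [map_mul, Complex.conj_conj, add_right_comm x (z : ZMod N) (y : ZMod N),
    add_right_comm x (z : ZMod N) (y' : ZMod N), add_right_comm x (z' : ZMod N) (y : ZMod N),
    add_right_comm x (z' : ZMod N) (y' : ZMod N)]
  ring

/-- split off two directions -/
theorem Box_add_two (k X : ℕ) (f : ZMod N → ℂ) :
    Box (k + 2) X f = 𝔼 a ∈ boxset k X, 𝔼 b ∈ boxset k X, U2 X (cube f a b) := by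
  induction k generalizing f with
  | zero =>
    rw [bx_boxset_zero]
    simp only [expect_singleton]
    have : cube f (Fin.elim0 : Fin 0 → ℕ) (Fin.elim0 : Fin 0 → ℕ) = f :=
      funext fun x => bx_cube_zero f _ _ x
    rw [this, bx_U2_eq]
  | succ k ih =>
    rw [show k + 1 + 2 = (k + 2) + 1 by ring, Box_succ]
    simp only [ih]
    rw [bx_expect_boxset_succ]
    refine expect_congr rfl fun z _ => ?_
    rw [expect_comm]
    refine expect_congr rfl fun a _ => ?_
    rw [bx_expect_boxset_succ]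
    refine expect_congr rfl fun z' _ => expect_congr rfl fun b _ => ?_
    congr 1
    funext x
    rw [bx_cube_cons]

private theorem bx_shorten_aux (k X X' : ℕ) (hX' : 1 ≤ X') (hX : X' ≤ X) {f : ZMod N → ℂ}
    (hf : ∀ x, ‖f x‖ ≤ 1) :
    Box (k + 2) X f ≤ (𝔼 a ∈ boxset k X', 𝔼 b ∈ boxset k X', U2 X (cube f a b))
      + k * (4 * X' / X) := by
  have hneX : (range X).Nonempty := by simpa using (by omega : X ≠ 0)
  have hne : ∀ k, (boxset k X').Nonempty := by
    intro k
    refine ⟨fun _ => 0, ?_⟩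
    simp only [boxset, Fintype.mem_piFinset, mem_range]
    intro _
    omega
  have hne2 : (boxset 2 X).Nonempty := by
    refine ⟨fun _ => 0, ?_⟩
    simp only [boxset, Fintype.mem_piFinset, mem_range]
    intro _
    omega
  have hone : ∀ v : ZMod N → ℂ, (∀ x, ‖v x‖ ≤ 1) →
      𝔼 z ∈ range X, 𝔼 z' ∈ range X,
        Box 2 X (fun x => v (x + (z : ZMod N)) * conj (v (x + (z' : ZMod N))))
      ≤ (𝔼 z ∈ range X', 𝔼 z' ∈ range X',
        Box 2 X (fun x => v (x + (z : ZMod N)) * conj (v (x + (z' : ZMod N))))) + 4 * X' / X := by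
    intro v hv
    rw [bx_Box_avg, bx_Box_avg]
    have hc : 𝔼 _a ∈ boxset 2 X, 𝔼 _b ∈ boxset 2 X, (4 * (X' : ℝ) / X) = 4 * X' / X := by
      rw [expect_const hne2, expect_const hne2]
    rw [← hc, ← expect_add_distrib]
    refine expect_le_expect fun a _ => ?_
    rw [← expect_add_distrib]
    refine expect_le_expect fun b _ => ?_
    exact bx_shorten (norm_cube_le 2 hv a b) X X' hX' (hX'.trans hX)
  induction k generalizing f with
  | zero =>
    rw [Box_add_two]
    simp [bx_boxset_zero]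
  | succ k ih =>
    have h1 : Box (k + 1 + 2) X f
        ≤ (𝔼 z ∈ range X, 𝔼 z' ∈ range X, 𝔼 a ∈ boxset k X', 𝔼 b ∈ boxset k X',
          U2 X (cube (fun x => f (x + (z : ZMod N)) * conj (f (x + (z' : ZMod N)))) a b))
          + k * (4 * X' / X) := by
      rw [show k + 1 + 2 = (k + 2) + 1 by ring, Box_succ]
      have hc : 𝔼 _z ∈ range X, 𝔼 _z' ∈ range X, ((k : ℝ) * (4 * X' / X)) = k * (4 * X' / X) := by
        rw [expect_const hneX, expect_const hneX]
      rw [← hc, ← expect_add_distrib]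
      refine expect_le_expect fun z _ => ?_
      rw [← expect_add_distrib]
      refine expect_le_expect fun z' _ => ?_
      refine ih fun x => ?_
      rw [norm_mul, RCLike.norm_conj]
      exact mul_le_one₀ (hf _) (norm_nonneg _) (hf _)
    have hcube : ∀ (z z' : ℕ) (a b : Fin k → ℕ),
        cube (fun x => f (x + (z : ZMod N)) * conj (f (x + (z' : ZMod N)))) a b
        = fun x => cube f a b (x + (z : ZMod N)) * conj (cube f a b (x + (z' : ZMod N))) := by
      intro z z' a b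
      funext x
      rw [cube_mul k (fun x => f (x + (z : ZMod N))) (fun x => conj (f (x + (z' : ZMod N)))),
        cube_shift, cube_conj k (fun x => f (x + (z' : ZMod N))), cube_shift]
    have hsw : ∀ Y : ℕ, 𝔼 z ∈ range Y, 𝔼 z' ∈ range Y, 𝔼 a ∈ boxset k X', 𝔼 b ∈ boxset k X',
          U2 X (cube (fun x => f (x + (z : ZMod N)) * conj (f (x + (z' : ZMod N)))) a b)
        = 𝔼 a ∈ boxset k X', 𝔼 b ∈ boxset k X', 𝔼 z ∈ range Y, 𝔼 z' ∈ range Y,
          Box 2 X (fun x => cube f a b (x + (z : ZMod N))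
            * conj (cube f a b (x + (z' : ZMod N)))) := by
      intro Y
      simp only [hcube, bx_U2_eq]
      have h1 : ∀ z ∈ range Y, 𝔼 z' ∈ range Y, 𝔼 a ∈ boxset k X', 𝔼 b ∈ boxset k X',
          Box 2 X (fun x => cube f a b (x + (z : ZMod N))
            * conj (cube f a b (x + (z' : ZMod N))))
          = 𝔼 a ∈ boxset k X', 𝔼 b ∈ boxset k X', 𝔼 z' ∈ range Y,
          Box 2 X (fun x => cube f a b (x + (z : ZMod N))
            * conj (cube f a b (x + (z' : ZMod N)))) := by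
        intro z _
        rw [expect_comm]
        exact expect_congr rfl fun a _ => expect_comm _ _ _
      rw [expect_congr rfl h1, expect_comm]
      exact expect_congr rfl fun a _ => expect_comm _ _ _
    have h2 : 𝔼 a ∈ boxset (k + 1) X', 𝔼 b ∈ boxset (k + 1) X', U2 X (cube f a b)
        = 𝔼 z ∈ range X', 𝔼 z' ∈ range X', 𝔼 a ∈ boxset k X', 𝔼 b ∈ boxset k X',
          U2 X (cube (fun x => f (x + (z : ZMod N)) * conj (f (x + (z' : ZMod N)))) a b) := by
      rw [bx_expect_boxset_succ]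
      refine expect_congr rfl fun z _ => ?_
      rw [expect_comm (range X') (boxset k X')]
      refine expect_congr rfl fun a _ => ?_
      rw [bx_expect_boxset_succ]
      refine expect_congr rfl fun z' _ => expect_congr rfl fun b _ => ?_
      congr 1
      funext x
      rw [bx_cube_cons]
    rw [hsw] at h1 h2
    have h3 : 𝔼 a ∈ boxset k X', 𝔼 b ∈ boxset k X', 𝔼 z ∈ range X, 𝔼 z' ∈ range X,
          Box 2 X (fun x => cube f a b (x + (z : ZMod N))
            * conj (cube f a b (x + (z' : ZMod N))))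
        ≤ (𝔼 a ∈ boxset k X', 𝔼 b ∈ boxset k X', 𝔼 z ∈ range X', 𝔼 z' ∈ range X',
          Box 2 X (fun x => cube f a b (x + (z : ZMod N))
            * conj (cube f a b (x + (z' : ZMod N))))) + 4 * X' / X := by
      have hc : 𝔼 _a ∈ boxset k X', 𝔼 _b ∈ boxset k X', (4 * (X' : ℝ) / X) = 4 * X' / X := by
        rw [expect_const (hne k), expect_const (hne k)]
      rw [← hc, ← expect_add_distrib]
      refine expect_le_expect fun a _ => ?_
      rw [← expect_add_distrib]
      refine expect_le_expect fun b _ => ?_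
      exact hone _ (norm_cube_le k hf a b)
    rw [h2]
    push_cast
    linarith

/-- shorten the first `k` directions -/
theorem Box_shorten (k X X' : ℕ) (hX' : 1 ≤ X') (hX : X' ≤ X) {f : ZMod N → ℂ}
    (hf : ∀ x, ‖f x‖ ≤ 1) :
    Box (k + 2) X f ≤ 𝔼 a ∈ boxset k X', 𝔼 b ∈ boxset k X', U2 X (cube f a b)
      + k * (4 * X' / X) :=
  bx_shorten_aux k X X' hX' hX hf

end BoxNorm

end

end Pool.Agent.Helper57.NX
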