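import Pool.Agent.Helper57.NX.Defs2
import Pool.Agent.Helper5.NX.Basic
import Pool.Agent.Helper25.NX.Gcs
import Pool.Agent.Helper88.NX.BoxNorm

/-!
# Project NX, module NX-12: degree lowering, second half
-/

set_option autoImplicit false
set_option linter.unusedSectionVars false
set_option linter.unusedVariables false

open Finset
open scoped BigOperators ComplexConjugate

namespace Pool.Agent.Helper57.NX

noncomputable section

/-! ### windows -/

private theorem db_shift (g : ℕ → ℂ) (hg : ∀ t, ‖g t‖ ≤ 1) (X : ℕ) (hX : 1 ≤ X) (z : ℕ) :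
    ‖(𝔼 t ∈ range X, g t) - 𝔼 t ∈ range X, g (t + z)‖ ≤ 2 * z / X := by
  have hX0 : (0 : ℝ) < X := by exact_mod_cast hX
  induction z with
  | zero => simp
  | succ z ih =>
    have key : ‖(𝔼 t ∈ range X, g (t + z)) - 𝔼 t ∈ range X, g (t + (z + 1))‖ ≤ 2 / X := by
      rw [expect_eq_sum_div_card, expect_eq_sum_div_card, card_range, ← sub_div, norm_div,
        Complex.norm_natCast]
      gcongr
      have e2 : (∑ t ∈ range X, g (t + z)) - ∑ t ∈ range X, g (t + (z + 1))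
          = -(g (X + z) - g z) := by
        have h3 : ∀ t : ℕ, g (t + (z + 1)) = (fun t : ℕ => g (t + z)) (t + 1) := by
          intro t
          simp only
          congr 1
          ring
        rw [sum_congr rfl fun t _ => h3 t, ← neg_sub, ← sum_sub_distrib,
          sum_range_sub (fun t : ℕ => g (t + z))]
        simp
      rw [e2, norm_neg]
      calc ‖g (X + z) - g z‖ ≤ ‖g (X + z)‖ + ‖g z‖ := norm_sub_le _ _
        _ ≤ 2 := by linarith [hg (X + z), hg z]
    calc ‖(𝔼 t ∈ range X, g t) - 𝔼 t ∈ range X, g (t + (z + 1))‖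
        ≤ ‖(𝔼 t ∈ range X, g t) - 𝔼 t ∈ range X, g (t + z)‖
          + ‖(𝔼 t ∈ range X, g (t + z)) - 𝔼 t ∈ range X, g (t + (z + 1))‖ :=
          norm_sub_le_norm_sub_add_norm_sub _ _ _
      _ ≤ 2 * z / X + 2 / X := add_le_add ih key
      _ = 2 * ((z + 1 : ℕ) : ℝ) / X := by
        push_cast
        ring

/-- a long average is an average of short windows, with a modified frequency -/
private theorem db_window (v : ℕ → ℂ) (hv : ∀ t, ‖v t‖ ≤ 1) (θ Ψ : ℝ) (X X' : ℕ) (hX : 1 ≤ X)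
    (hX' : 1 ≤ X') :
    ‖𝔼 t ∈ range X, v t * e (-(θ * t))‖
      ≤ (𝔼 t0 ∈ range X, ‖𝔼 z ∈ range X', v (t0 + z) * e (-(Ψ * z))‖)
        + (2 * X' / X + 2 * Real.pi * |θ - Ψ| * X') := by
  have hne : (range X).Nonempty := by simpa using (by omega : X ≠ 0)
  have hne' : (range X').Nonempty := by simpa using (by omega : X' ≠ 0)
  set g : ℕ → ℂ := fun t => v t * e (-(θ * t)) with hg
  have hg1 : ∀ t, ‖g t‖ ≤ 1 := fun t => by
    rw [hg]
    simp only [norm_mul, norm_e, mul_one]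
    exact hv t
  have h1 : ‖(𝔼 t ∈ range X, g t) - 𝔼 z ∈ range X', 𝔼 t ∈ range X, g (t + z)‖ ≤ 2 * X' / X := by
    have : (𝔼 t ∈ range X, g t) - 𝔼 z ∈ range X', 𝔼 t ∈ range X, g (t + z)
        = 𝔼 z ∈ range X', ((𝔼 t ∈ range X, g t) - 𝔼 t ∈ range X, g (t + z)) := by
      rw [expect_sub_distrib, expect_const hne']
    rw [this]
    refine norm_expect_le_of5 _ _ (by positivity) fun z hz => ?_
    refine (db_shift g hg1 X hX z).trans ?_
    have : (z : ℝ) ≤ X' := by exact_mod_cast (mem_range.mp hz).le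
    gcongr
  have h2 : 𝔼 z ∈ range X', 𝔼 t ∈ range X, g (t + z)
      = 𝔼 t ∈ range X, 𝔼 z ∈ range X', g (t + z) := expect_comm _ _ _
  have h3 : ‖𝔼 t ∈ range X, 𝔼 z ∈ range X', g (t + z)‖
      ≤ 𝔼 t ∈ range X, ‖𝔼 z ∈ range X', g (t + z)‖ := norm_expect_le5 _ _
  have h4 : ∀ t ∈ range X, ‖𝔼 z ∈ range X', g (t + z)‖
      ≤ ‖𝔼 z ∈ range X', v (t + z) * e (-(Ψ * z))‖ + 2 * Real.pi * |θ - Ψ| * X' := by
    intro t _
    have h5 : 𝔼 z ∈ range X', g (t + z)
        = e (-(θ * t)) * 𝔼 z ∈ range X', v (t + z) * e (-(θ * z)) := by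
      rw [mul_expect]
      refine expect_congr rfl fun z _ => ?_
      rw [hg]
      simp only
      rw [show -(θ * ((t + z : ℕ) : ℝ)) = -(θ * t) + -(θ * z) by push_cast; ring, e_add]
      ring
    rw [h5, norm_mul, norm_e, one_mul]
    have h6 : ‖(𝔼 z ∈ range X', v (t + z) * e (-(θ * z)))
        - 𝔼 z ∈ range X', v (t + z) * e (-(Ψ * z))‖ ≤ 2 * Real.pi * |θ - Ψ| * X' := by
      rw [← expect_sub_distrib]
      refine norm_expect_le_of5 _ _ (by positivity) fun z hz => ?_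
      rw [← mul_sub, norm_mul]
      have h7 := norm_e_sub_e_le (-(θ * z)) (-(Ψ * z))
      have h8 : |-(θ * (z : ℝ)) - -(Ψ * z)| = |θ - Ψ| * z := by
        rw [show -(θ * (z : ℝ)) - -(Ψ * z) = -((θ - Ψ) * z) by ring, abs_neg, abs_mul,
          Nat.abs_cast]
      have h9 : (z : ℝ) ≤ X' := by exact_mod_cast (mem_range.mp hz).le
      calc ‖v (t + z)‖ * ‖e (-(θ * z)) - e (-(Ψ * z))‖
          ≤ 1 * (2 * Real.pi * (|θ - Ψ| * z)) := by
            rw [← h8]
            exact mul_le_mul (hv _) h7 (norm_nonneg _) zero_le_one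
        _ ≤ 2 * Real.pi * |θ - Ψ| * X' := by
            rw [one_mul, ← mul_assoc]
            gcongr
    have := norm_le_norm_add_norm_sub' (𝔼 z ∈ range X', v (t + z) * e (-(θ * z)))
      (𝔼 z ∈ range X', v (t + z) * e (-(Ψ * z)))
    linarith
  have h5 : 𝔼 t ∈ range X, ‖𝔼 z ∈ range X', g (t + z)‖
      ≤ (𝔼 t ∈ range X, ‖𝔼 z ∈ range X', v (t + z) * e (-(Ψ * z))‖)
        + 2 * Real.pi * |θ - Ψ| * X' := by
    have hc : (𝔼 _t ∈ range X, 2 * Real.pi * |θ - Ψ| * X') = 2 * Real.pi * |θ - Ψ| * X' :=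
      expect_const hne _
    rw [← hc, ← expect_add_distrib]
    exact expect_le_expect h4
  have h6 := norm_le_norm_add_norm_sub' (𝔼 t ∈ range X, g t)
    (𝔼 z ∈ range X', 𝔼 t ∈ range X, g (t + z))
  rw [h2] at h6 h1
  linarith

private theorem db_e_sum {ι : Type} (s : Finset ι) (g : ι → ℝ) :
    e (∑ i ∈ s, g i) = ∏ i ∈ s, e (g i) := by
  classical
  induction s using Finset.induction_on with
  | empty => simp [e_zero]
  | insert i s hi ih => rw [sum_insert hi, prod_insert hi, e_add, ih]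

/-! ### the Cauchy Schwarz step at one point -/

section point
variable {N : ℕ} [NeZero N]

private theorem db_point (k : ℕ) (hk : 1 ≤ k) (X' : ℕ) (hX' : 1 ≤ X') (V : ZMod N → ℂ)
    (hV : ∀ x, ‖V x‖ ≤ 1) (θ : (Fin k → ℕ) → ℝ) (a' b : Fin k → ℕ) (w : ℝ) (x : ZMod N) :
    ‖𝔼 a ∈ boxset k X', cube V a b x *
        e ((∑ ω ∈ univ.erase (fun _ : Fin k => false), sg ω * θ (sel ω a a')) * w)‖ ^ (2 ^ k)
      ≤ (𝔼 a ∈ boxset k X', 𝔼 a'' ∈ boxset k X', cube V a a'' x).re := by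
  classical
  have hne : ∀ i : Fin k, (range X').Nonempty := fun _ => by simpa using (by omega : X' ≠ 0)
  set Z : Finset (Fin k → Bool) := univ.erase (fun _ : Fin k => false) with hZ
  -- the index of a nonzero `ω`
  have hidx : ∀ ω : Fin k → Bool, ∃ i : Fin k, ω ∈ Z → ω i = true := by
    intro ω
    by_cases h : ω ∈ Z
    · have h1 : ω ≠ fun _ => false := by
        rw [hZ] at h
        exact (mem_erase.mp h).1
      obtain ⟨i, hi⟩ := Function.ne_iff.mp h1
      exact ⟨i, fun _ => by simpa using hi⟩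
    · exact ⟨⟨0, hk⟩, fun h' => absurd h' h⟩
  choose idx hidx using hidx
  set H : (Fin k → Bool) → (Fin k → ℕ) → ℂ := fun ω a =>
    cjj ω (V (x + (tot (sel ω a b) : ZMod N))) * e (sg ω * θ (sel ω a a') * w) with hH
  have hcjj : ∀ (ω : Fin k → Bool) (z : ℂ), ‖cjj ω z‖ = ‖z‖ := by
    intro ω z
    unfold cjj
    split_ifs <;> simp
  have hH1 : ∀ ω a, ‖H ω a‖ ≤ 1 := by
    intro ω a
    rw [hH]
    simp only [norm_mul, norm_e, mul_one, hcjj]
    exact hV _
  have hHdep : ∀ ω ∈ Z, ∀ a a₂ : Fin k → ℕ, (∀ i, i ≠ idx ω → a i = a₂ i) → H ω a = H ω a₂ := by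
    intro ω hω a a₂ h
    have hs : ∀ c : Fin k → ℕ, sel ω a c = sel ω a₂ c := by
      intro c
      funext i
      by_cases hi : i = idx ω
      · subst hi
        simp [sel, hidx ω hω]
      · simp only [sel, h i hi]
    simp only [hH, hs]
  set B : Fin k → (Fin k → ℕ) → ℂ := fun i a => ∏ ω ∈ Z with idx ω = i, H ω a with hB
  have hmain : ∀ a : Fin k → ℕ, cube V a b x *
        e ((∑ ω ∈ Z, sg ω * θ (sel ω a a')) * w)
      = V (x + (tot a : ZMod N)) * ∏ i, B i a := by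
    intro a
    have h1 : ∏ i, B i a = ∏ ω ∈ Z, H ω a := by
      rw [hB]
      exact prod_fiberwise Z idx (fun ω => H ω a)
    have h2 : e ((∑ ω ∈ Z, sg ω * θ (sel ω a a')) * w)
        = ∏ ω ∈ Z, e (sg ω * θ (sel ω a a') * w) := by
      rw [sum_mul]
      exact db_e_sum Z fun ω => sg ω * θ (sel ω a a') * w
    have h3 : cube V a b x = V (x + (tot a : ZMod N))
        * ∏ ω ∈ Z, cjj ω (V (x + (tot (sel ω a b) : ZMod N))) := by
      unfold cube
      rw [← mul_prod_erase univ _ (mem_univ (fun _ : Fin k => false))]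
      congr 1
      have h0 : sel (fun _ : Fin k => false) a b = a := by
        funext i
        simp [sel]
      rw [h0]
      simp [cjj]
    rw [h1, h2, h3, mul_assoc, ← prod_mul_distrib]
  have hg := gcs hk (fun _ : Fin k => range X') hne (fun a => V (x + (tot a : ZMod N))) B
    (by
      intro i a
      rw [hB]
      simp only
      rw [norm_prod]
      exact prod_le_one (fun _ _ => norm_nonneg _) fun ω _ => hH1 ω a)
    (by
      intro i a a₂ h
      rw [hB]
      simp only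
      refine prod_congr rfl fun ω hω => ?_
      have hω' := mem_filter.mp hω
      refine hHdep ω hω'.1 a a₂ fun l hl => h l ?_
      rw [← hω'.2]
      exact hl)
  have h1 : 𝔼 a ∈ boxset k X', cube V a b x *
        e ((∑ ω ∈ Z, sg ω * θ (sel ω a a')) * w)
      = 𝔼 a ∈ Fintype.piFinset (fun _ : Fin k => range X'),
        V (x + (tot a : ZMod N)) * ∏ i, B i a :=
    expect_congr rfl fun a _ => hmain a
  rw [h1]
  exact hg

private theorem db_norm_sq {ι : Type} (s : Finset ι) (f : ι → ℂ) :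
    ‖𝔼 i ∈ s, f i‖ ^ 2 = (𝔼 i ∈ s, 𝔼 j ∈ s, f i * conj (f j)).re := by
  rw [← expect_mul_expect, ← gcs_conj_expect, Complex.mul_conj, Complex.normSq_eq_norm_sq,
    Complex.ofReal_re]

/-- the local quantity -/
private def dbG (k X' : ℕ) (u : ZMod N → ℂ) (x : ZMod N) : ℝ :=
  𝔼 z ∈ range X', 𝔼 z' ∈ range X', (𝔼 a ∈ boxset k X', 𝔼 a'' ∈ boxset k X',
    cube (fun x => u (x + (z : ZMod N)) * conj (u (x + (z' : ZMod N)))) a a'' x).re

private theorem dbG_nonneg (k : ℕ) (hk : 1 ≤ k) (X' : ℕ) (u : ZMod N → ℂ) (x : ZMod N) :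
    0 ≤ dbG k X' u x := by
  refine expect_nonneg fun z _ => expect_nonneg fun z' _ => ?_
  obtain ⟨r, hr, h⟩ := gcs_pos hk (fun _ : Fin k => range X')
    (fun a => (fun x => u (x + (z : ZMod N)) * conj (u (x + (z' : ZMod N))))
      (x + (tot a : ZMod N)))
  have h' : 𝔼 a ∈ boxset k X', 𝔼 a'' ∈ boxset k X',
    cube (fun x => u (x + (z : ZMod N)) * conj (u (x + (z' : ZMod N)))) a a'' x = r := h
  rw [h', Complex.ofReal_re]
  exact hr

private theorem dbG_expect (k X' : ℕ) (u : ZMod N → ℂ) :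
    𝔼 x, dbG k X' u x = Box (k + 1) X' u := by
  rw [Box_succ]
  unfold dbG
  rw [expect_comm]
  refine expect_congr rfl fun z _ => ?_
  rw [expect_comm]
  refine expect_congr rfl fun z' _ => ?_
  rw [← gcs_re_expect]
  unfold Box
  congr 1
  rw [expect_comm]
  refine expect_congr rfl fun a _ => ?_
  rw [expect_comm]

private theorem db_local (k : ℕ) (hk : 1 ≤ k) (X' : ℕ) (hX' : 1 ≤ X') (u : ZMod N → ℂ)
    (hu : ∀ x, ‖u x‖ ≤ 1) (θ : (Fin k → ℕ) → (Fin k → ℕ) → ℕ → ℝ) (a' : Fin k → ℕ) (j : ℕ)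
    (x : ZMod N) :
    (𝔼 a ∈ boxset k X', 𝔼 b ∈ boxset k X',
      ‖𝔼 z ∈ range X', cube u a b (x + (z : ZMod N)) * e (-(psiSum θ a' a b j * z))‖)
        ^ (2 ^ (k + 1)) ≤ dbG k X' u x := by
  have hneb : (boxset k X').Nonempty := by
    refine ⟨fun _ => 0, ?_⟩
    simp only [boxset, Fintype.mem_piFinset, mem_range]
    intro _
    omega
  set T : ℕ → ℕ → (Fin k → ℕ) → (Fin k → ℕ) → ℂ := fun z z' b a =>
    cube (fun x => u (x + (z : ZMod N)) * conj (u (x + (z' : ZMod N)))) a b x *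
      e ((∑ ω ∈ univ.erase (fun _ : Fin k => false), sg ω * θ (sel ω a a') b j)
        * ((z : ℝ) - z')) with hT
  have h1 : (𝔼 a ∈ boxset k X', 𝔼 b ∈ boxset k X',
      ‖𝔼 z ∈ range X', cube u a b (x + (z : ZMod N)) * e (-(psiSum θ a' a b j * z))‖) ^ 2
      ≤ 𝔼 z ∈ range X', 𝔼 z' ∈ range X', 𝔼 b ∈ boxset k X', ‖𝔼 a ∈ boxset k X', T z z' b a‖ := by
    have h2 : (𝔼 a ∈ boxset k X', 𝔼 b ∈ boxset k X',
      ‖𝔼 z ∈ range X', cube u a b (x + (z : ZMod N)) * e (-(psiSum θ a' a b j * z))‖) ^ 2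
      ≤ 𝔼 a ∈ boxset k X', 𝔼 b ∈ boxset k X',
      ‖𝔼 z ∈ range X', cube u a b (x + (z : ZMod N)) * e (-(psiSum θ a' a b j * z))‖ ^ 2 := by
      refine (gcs_sq_expect_le _ _).trans ?_
      exact expect_le_expect fun a _ => gcs_sq_expect_le _ _
    refine h2.trans ?_
    have h3 : ∀ a b : Fin k → ℕ,
        ‖𝔼 z ∈ range X', cube u a b (x + (z : ZMod N)) * e (-(psiSum θ a' a b j * z))‖ ^ 2
        = (𝔼 z ∈ range X', 𝔼 z' ∈ range X', T z z' b a).re := by
      intro a b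
      rw [db_norm_sq]
      congr 1
      refine expect_congr rfl fun z _ => expect_congr rfl fun z' _ => ?_
      rw [hT]
      simp only
      rw [cube_mul k (fun x => u (x + (z : ZMod N))) (fun x => conj (u (x + (z' : ZMod N)))),
        cube_shift, cube_conj k (fun x => u (x + (z' : ZMod N))), cube_shift, map_mul, ← e_neg]
      rw [show (∑ ω ∈ univ.erase (fun _ : Fin k => false), sg ω * θ (sel ω a a') b j)
        * ((z : ℝ) - z') = -(psiSum θ a' a b j * z) + - -(psiSum θ a' a b j * z') by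
          unfold psiSum; ring, e_add]
      ring
    simp only [h3]
    have h4 : 𝔼 a ∈ boxset k X', 𝔼 b ∈ boxset k X',
        (𝔼 z ∈ range X', 𝔼 z' ∈ range X', T z z' b a).re
        = 𝔼 z ∈ range X', 𝔼 z' ∈ range X', 𝔼 b ∈ boxset k X',
          (𝔼 a ∈ boxset k X', T z z' b a).re := by
      simp only [gcs_re_expect]
      have h5 : ∀ a ∈ boxset k X', 𝔼 b ∈ boxset k X', 𝔼 z ∈ range X', 𝔼 z' ∈ range X',
          (T z z' b a).re
          = 𝔼 z ∈ range X', 𝔼 z' ∈ range X', 𝔼 b ∈ boxset k X', (T z z' b a).re := by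
        intro a _
        rw [expect_comm]
        exact expect_congr rfl fun z _ => expect_comm _ _ _
      rw [expect_congr rfl h5, expect_comm]
      refine expect_congr rfl fun z _ => ?_
      rw [expect_comm]
      refine expect_congr rfl fun z' _ => ?_
      rw [expect_comm]
    rw [h4]
    exact expect_le_expect fun z _ => expect_le_expect fun z' _ => expect_le_expect fun b _ =>
      Complex.re_le_norm _
  have h0 : 0 ≤ 𝔼 a ∈ boxset k X', 𝔼 b ∈ boxset k X',
      ‖𝔼 z ∈ range X', cube u a b (x + (z : ZMod N)) * e (-(psiSum θ a' a b j * z))‖ :=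
    expect_nonneg fun a _ => expect_nonneg fun b _ => norm_nonneg _
  rw [pow_succ, mul_comm, pow_mul]
  refine (pow_le_pow_left₀ (by positivity) h1 _).trans ?_
  refine (gcs_pow_expect_le _ _ _ fun z _ => expect_nonneg fun z' _ => expect_nonneg fun b _ =>
    norm_nonneg _).trans ?_
  refine expect_le_expect fun z _ => ?_
  refine (gcs_pow_expect_le _ _ _ fun z' _ => expect_nonneg fun b _ => norm_nonneg _).trans ?_
  refine expect_le_expect fun z' _ => ?_
  refine (gcs_pow_expect_le _ _ _ fun b _ => norm_nonneg _).trans ?_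
  refine expect_le hneb fun b _ => ?_
  refine db_point k hk X' hX' _ (fun y => ?_) (fun a => θ a b j) a' b ((z : ℝ) - z') x
  rw [norm_mul, RCLike.norm_conj]
  exact mul_le_one₀ (hu _) (norm_nonneg _) (hu _)

/-- blocks cover at most everything -/
private theorem db_blocks (G : ZMod N → ℝ) (hG : ∀ x, 0 ≤ G x) (X : ℕ) (hX : 1 ≤ X)
    (hXN : 2 * X ≤ N) (r : ZMod N) :
    𝔼 j ∈ range (N / X), 𝔼 t ∈ range X, G (r + ((j * X + t : ℕ) : ZMod N))
      ≤ 2 * 𝔼 x, G x := by
  have hsum : ∀ (K : ℕ) (g : ℕ → ℝ), ∑ j ∈ range K, ∑ t ∈ range X, g (j * X + t)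
      = ∑ s ∈ range (K * X), g s := by
    intro K g
    induction K with
    | zero => simp
    | succ K ih => rw [sum_range_succ, ih, add_mul, one_mul, sum_range_add]
  have hN0 : 0 < N := NeZero.pos N
  have hK1 : 1 ≤ N / X := (Nat.one_le_div_iff (by omega)).mpr (by omega)
  have hKN : N / X * X ≤ N := Nat.div_mul_le_self N X
  have hKN2 : N ≤ 2 * (N / X * X) := by
    have := Nat.lt_div_mul_add (a := N) (b := X) (by omega)
    omega
  have h1 : 𝔼 j ∈ range (N / X), 𝔼 t ∈ range X, G (r + ((j * X + t : ℕ) : ZMod N))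
      = (∑ s ∈ range (N / X * X), G (r + (s : ZMod N))) / ((N / X * X : ℕ) : ℝ) := by
    rw [expect_eq_sum_div_card, card_range]
    have : ∀ j ∈ range (N / X), 𝔼 t ∈ range X, G (r + ((j * X + t : ℕ) : ZMod N))
        = (∑ t ∈ range X, G (r + ((j * X + t : ℕ) : ZMod N))) / X := by
      intro j _
      rw [expect_eq_sum_div_card, card_range]
    rw [sum_congr rfl this, ← sum_div, hsum (N / X) (fun s => G (r + (s : ZMod N))), div_div]
    congr 1
    push_cast
    ring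
  have h2 : ∑ s ∈ range (N / X * X), G (r + (s : ZMod N)) ≤ ∑ x, G x := by
    have hinj : Set.InjOn (fun s : ℕ => r + (s : ZMod N)) (range (N / X * X)) := by
      intro s hs t ht hst
      have hs' : s < N := lt_of_lt_of_le (by simpa using hs) hKN
      have ht' : t < N := lt_of_lt_of_le (by simpa using ht) hKN
      have h3 : (s : ZMod N) = (t : ZMod N) := add_left_cancel hst
      have h4 := congrArg ZMod.val h3
      rwa [ZMod.val_natCast_of_lt hs', ZMod.val_natCast_of_lt ht'] at h4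
    rw [← sum_image (f := G) hinj]
    exact sum_le_sum_of_subset_of_nonneg (subset_univ _) fun x _ _ => hG x
  have h3 : 𝔼 x, G x = (∑ x, G x) / N := by
    rw [Fintype.expect_eq_sum_div_card, ZMod.card]
  rw [h1, h3]
  have hS : 0 ≤ ∑ x, G x := sum_nonneg fun x _ => hG x
  have hN0' : (0 : ℝ) < N := by exact_mod_cast hN0
  have hM0 : (0 : ℝ) < ((N / X * X : ℕ) : ℝ) := by
    have : 0 < N / X * X := by omega
    exact_mod_cast this
  have hKN2' : (N : ℝ) ≤ 2 * ((N / X * X : ℕ) : ℝ) := by exact_mod_cast hKN2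
  calc (∑ s ∈ range (N / X * X), G (r + (s : ZMod N))) / ((N / X * X : ℕ) : ℝ)
      ≤ (∑ x, G x) / ((N / X * X : ℕ) : ℝ) := by gcongr
    _ ≤ 2 * ((∑ x, G x) / N) := by
      rw [div_le_iff₀ hM0, mul_assoc, div_mul_eq_mul_div, ← mul_div_assoc, le_div_iff₀ hN0']
      nlinarith

end point

theorem dl_B (k : ℕ) (hk : 1 ≤ k) : ∀ n n1 : ℕ, ∃ n3 : ℕ,
    ∀ (N : ℕ) [NeZero N] (u : ZMod N → ℂ) (δ : ℝ) (X X' : ℕ), (∀ x, ‖u x‖ ≤ 1) →
      0 < δ → δ ≤ 1 / 2 → 1 ≤ X → (X : ℝ) ≤ δ ^ n3 * N → 1 ≤ X' → (X' : ℝ) ≤ δ ^ n3 * X →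
      ∀ (r : ZMod N) (θ : (Fin k → ℕ) → (Fin k → ℕ) → ℕ → ℝ) (a' : ℕ → Fin k → ℕ),
        (∀ j, a' j ∈ boxset k X') →
        δ ^ n ≤ 𝔼 j ∈ range (N / X), 𝔼 a ∈ boxset k X', 𝔼 b ∈ boxset k X',
          (if |θ a b j - psiSum θ (a' j) a b j| ≤ δ⁻¹ ^ n1 / X then
            ‖𝔼 t ∈ range X, cube u a b (r + ((j * X + t : ℕ) : ZMod N)) * e (-(θ a b j * t))‖
          else 0) →
        δ ^ n3 ≤ Box (k + 1) X' u := by
  intro n n1
  refine ⟨n + n1 + 5 + (n + 1) * 2 ^ (k + 1) + 1, ?_⟩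
  intro N _ u δ X X' hu hδ0 hδ1 hX hXN hX' hXX r θ a' _ h
  set n3 := n + n1 + 5 + (n + 1) * 2 ^ (k + 1) + 1 with hn3
  have hX0 : (0 : ℝ) < X := by exact_mod_cast hX
  have hN0 : (0 : ℝ) < N := by exact_mod_cast NeZero.pos N
  have hδ1' : δ ≤ 1 := hδ1.trans (by norm_num)
  have hn3half : δ ^ n3 ≤ 1 / 2 :=
    (pow_le_pow_of_le_one hδ0.le hδ1' (by omega : 1 ≤ n3)).trans (by simpa using hδ1)
  have hXN2 : 2 * X ≤ N := by
    have : 2 * (X : ℝ) ≤ N := by nlinarith
    exact_mod_cast this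
  have hKne : (range (N / X)).Nonempty := by
    have : 1 ≤ N / X := (Nat.one_le_div_iff (by omega)).mpr (by omega)
    simpa using (by omega : N / X ≠ 0)
  have hneb : (boxset k X').Nonempty := by
    refine ⟨fun _ => 0, ?_⟩
    simp only [boxset, Fintype.mem_piFinset, mem_range]
    intro _
    omega
  have hneX : (range X).Nonempty := by simpa using (by omega : X ≠ 0)
  set W : ℕ → ℕ → ℝ := fun j t0 => 𝔼 a ∈ boxset k X', 𝔼 b ∈ boxset k X',
      ‖𝔼 z ∈ range X', cube u a b (r + ((j * X + t0 : ℕ) : ZMod N) + (z : ZMod N))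
        * e (-(psiSum θ (a' j) a b j * z))‖ with hW
  set err : ℝ := 2 * X' / X + 2 * Real.pi * (δ⁻¹ ^ n1 / X) * X' with herr
  have herr0 : 0 ≤ err := by positivity
  have hWn : ∀ j t0, 0 ≤ W j t0 := fun j t0 =>
    expect_nonneg fun a _ => expect_nonneg fun b _ => norm_nonneg _
  -- the error term
  have herr1 : err ≤ δ ^ n / 2 := by
    have h1 : (X' : ℝ) / X ≤ δ ^ n3 := by
      rw [div_le_iff₀ hX0]
      exact hXX
    have h2 : err = 2 * (X' / X) + 2 * Real.pi * (δ⁻¹ ^ n1 * (X' / X)) := by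
      rw [herr]
      ring
    have hpi : Real.pi ≤ 4 := Real.pi_le_four
    have h3 : δ⁻¹ ^ n1 * δ ^ n1 = 1 := by
      rw [← mul_pow, inv_mul_cancel₀ hδ0.ne', one_pow]
    have h4 : δ ^ n3 ≤ δ ^ n1 * (δ ^ n * (1 / 32)) := by
      have : n3 = n1 + (n + 5) + ((n + 1) * 2 ^ (k + 1) + 1) := by omega
      rw [this, pow_add, pow_add, pow_add]
      have h5 : δ ^ 5 ≤ 1 / 32 := by
        calc δ ^ 5 ≤ (1 / 2) ^ 5 := pow_le_pow_left₀ hδ0.le hδ1 5
          _ = 1 / 32 := by norm_num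
      have h6 : δ ^ ((n + 1) * 2 ^ (k + 1) + 1) ≤ 1 := pow_le_one₀ hδ0.le hδ1'
      calc δ ^ n1 * (δ ^ n * δ ^ 5) * δ ^ ((n + 1) * 2 ^ (k + 1) + 1)
          ≤ δ ^ n1 * (δ ^ n * δ ^ 5) * 1 := by gcongr
        _ ≤ δ ^ n1 * (δ ^ n * (1 / 32)) := by
          rw [mul_one]
          gcongr
    have h7 : δ⁻¹ ^ n1 * (X' / X) ≤ δ ^ n * (1 / 32) := by
      calc δ⁻¹ ^ n1 * ((X' : ℝ) / X) ≤ δ⁻¹ ^ n1 * (δ ^ n1 * (δ ^ n * (1 / 32))) := by
            gcongr
            exact h1.trans h4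
        _ = δ ^ n * (1 / 32) := by rw [← mul_assoc, h3, one_mul]
    have h8 : (X' : ℝ) / X ≤ δ ^ n * (1 / 32) := by
      refine (h1.trans h4).trans ?_
      have : δ ^ n1 ≤ 1 := pow_le_one₀ hδ0.le hδ1'
      have h9 : 0 ≤ δ ^ n * (1 / 32) := by positivity
      nlinarith
    have h10 : 0 ≤ δ⁻¹ ^ n1 * ((X' : ℝ) / X) := by positivity
    have h11 : 0 < δ ^ n := by positivity
    rw [h2]
    nlinarith
  -- step A
  have hA : δ ^ n ≤ (𝔼 j ∈ range (N / X), 𝔼 t0 ∈ range X, W j t0) + err := by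
    refine h.trans ?_
    have hc : 𝔼 _j ∈ range (N / X), err = err := expect_const hKne _
    rw [← hc, ← expect_add_distrib]
    refine expect_le_expect fun j _ => ?_
    have hterm : ∀ a b : Fin k → ℕ,
        (if |θ a b j - psiSum θ (a' j) a b j| ≤ δ⁻¹ ^ n1 / X then
            ‖𝔼 t ∈ range X, cube u a b (r + ((j * X + t : ℕ) : ZMod N)) * e (-(θ a b j * t))‖
          else 0)
        ≤ (𝔼 t0 ∈ range X, ‖𝔼 z ∈ range X',
            cube u a b (r + ((j * X + t0 : ℕ) : ZMod N) + (z : ZMod N))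
            * e (-(psiSum θ (a' j) a b j * z))‖) + err := by
      intro a b
      have hn : 0 ≤ 𝔼 t0 ∈ range X, ‖𝔼 z ∈ range X',
            cube u a b (r + ((j * X + t0 : ℕ) : ZMod N) + (z : ZMod N))
            * e (-(psiSum θ (a' j) a b j * z))‖ := expect_nonneg fun _ _ => norm_nonneg _
      split_ifs with hif
      · have hw := db_window (fun t => cube u a b (r + ((j * X + t : ℕ) : ZMod N)))
          (fun t => norm_cube_le k hu a b _) (θ a b j) (psiSum θ (a' j) a b j) X X' hX hX'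
        refine hw.trans ?_
        have hcast : ∀ t0 z : ℕ, (r + ((j * X + (t0 + z) : ℕ) : ZMod N))
            = r + ((j * X + t0 : ℕ) : ZMod N) + (z : ZMod N) := by
          intro t0 z
          push_cast
          ring
        simp only [hcast]
        have : 2 * Real.pi * |θ a b j - psiSum θ (a' j) a b j| * X'
            ≤ 2 * Real.pi * (δ⁻¹ ^ n1 / X) * X' := by gcongr
        rw [herr]
        linarith
      · linarith
    have hc2 : 𝔼 _a ∈ boxset k X', 𝔼 _b ∈ boxset k X', err = err := by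
      rw [expect_const hneb, expect_const hneb]
    calc 𝔼 a ∈ boxset k X', 𝔼 b ∈ boxset k X',
          (if |θ a b j - psiSum θ (a' j) a b j| ≤ δ⁻¹ ^ n1 / X then
            ‖𝔼 t ∈ range X, cube u a b (r + ((j * X + t : ℕ) : ZMod N)) * e (-(θ a b j * t))‖
          else 0)
        ≤ 𝔼 a ∈ boxset k X', 𝔼 b ∈ boxset k X', ((𝔼 t0 ∈ range X, ‖𝔼 z ∈ range X',
            cube u a b (r + ((j * X + t0 : ℕ) : ZMod N) + (z : ZMod N))
            * e (-(psiSum θ (a' j) a b j * z))‖) + err) :=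
          expect_le_expect fun a _ => expect_le_expect fun b _ => hterm a b
      _ = (𝔼 a ∈ boxset k X', 𝔼 b ∈ boxset k X', 𝔼 t0 ∈ range X, ‖𝔼 z ∈ range X',
            cube u a b (r + ((j * X + t0 : ℕ) : ZMod N) + (z : ZMod N))
            * e (-(psiSum θ (a' j) a b j * z))‖) + err := by
          rw [← hc2, ← expect_add_distrib]
          refine expect_congr rfl fun a _ => ?_
          rw [← expect_add_distrib]
          simp only [hc2]
      _ = (𝔼 t0 ∈ range X, W j t0) + err := by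
          congr 1
          rw [hW]
          simp only
          have h5 : ∀ a ∈ boxset k X', 𝔼 b ∈ boxset k X', 𝔼 t0 ∈ range X, ‖𝔼 z ∈ range X',
            cube u a b (r + ((j * X + t0 : ℕ) : ZMod N) + (z : ZMod N))
            * e (-(psiSum θ (a' j) a b j * z))‖
            = 𝔼 t0 ∈ range X, 𝔼 b ∈ boxset k X', ‖𝔼 z ∈ range X',
            cube u a b (r + ((j * X + t0 : ℕ) : ZMod N) + (z : ZMod N))
            * e (-(psiSum θ (a' j) a b j * z))‖ := fun a _ => expect_comm _ _ _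
          rw [expect_congr rfl h5, expect_comm]
  have hA' : δ ^ (n + 1) ≤ 𝔼 j ∈ range (N / X), 𝔼 t0 ∈ range X, W j t0 := by
    have h1 : δ ^ (n + 1) ≤ δ ^ n / 2 := by
      rw [pow_succ]
      have : 0 < δ ^ n := by positivity
      nlinarith
    linarith
  -- steps B and C
  have hB : (δ ^ (n + 1)) ^ (2 ^ (k + 1))
      ≤ 𝔼 j ∈ range (N / X), 𝔼 t ∈ range X, dbG k X' u (r + ((j * X + t : ℕ) : ZMod N)) := by
    refine (pow_le_pow_left₀ (by positivity) hA' _).trans ?_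
    refine (gcs_pow_expect_le _ _ _ fun j _ => expect_nonneg fun t _ => hWn j t).trans ?_
    refine expect_le_expect fun j _ => ?_
    refine (gcs_pow_expect_le _ _ _ fun t _ => hWn j t).trans ?_
    refine expect_le_expect fun t _ => ?_
    exact db_local k hk X' hX' u hu θ (a' j) j _
  have hC := db_blocks (dbG k X' u) (dbG_nonneg k hk X' u) X hX hXN2 r
  rw [dbG_expect] at hC
  have hD : (δ ^ (n + 1)) ^ (2 ^ (k + 1)) ≤ 2 * Box (k + 1) X' u := hB.trans hC
  have hE : δ ^ n3 ≤ (δ ^ (n + 1)) ^ (2 ^ (k + 1)) * δ := by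
    rw [← pow_mul, ← pow_succ]
    exact pow_le_pow_of_le_one hδ0.le hδ1' (by omega)
  have hF : 0 ≤ (δ ^ (n + 1)) ^ (2 ^ (k + 1)) := by positivity
  nlinarith

end

end Pool.Agent.Helper57.NX
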